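import Pool.Agent.helper84.TP.SpecA

/-! # Row tp:MCH (MP_1a4948_lc): the affine machine of a code -/

set_option autoImplicit false

namespace Pool.Agent.TP

open Function Turing Turing.PartrecToTM2 Relation

/-- the encoding by natural numbers -/
def MCH_enc (ν : Sm → ℕ) (C : MC) : Fin 5 → ℕ :=
  ![5 * ν C.1 + dg C.2.1, num (C.2.2 K'.main), num (C.2.2 K'.rev), num (C.2.2 K'.aux),
    num (C.2.2 K'.stack)]

theorem MCH_cz (ν : Sm → ℕ) (C : MC) : cz (MCH_enc ν C) = enc ν C := by
  funext j
  fin_cases j <;> rfl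

/-- the parameter of the final configurations -/
def MCH_n (ν : Sm → ℕ) (C : MC) : Fin 5 → ℤ := fun j => if j = 0 then 0 else enc ν C j

theorem MCH_halt (ν : Sm → ℕ) (B : ℕ) (v : Option Γ') (S : K' → List Γ') :
    enc ν (TM2.Stmt.halt, v, S) =
      (insOf ν B TM2.Stmt.halt v none).l (MCH_n ν (TM2.Stmt.halt, v, S)) := by
  funext j
  fin_cases j
  · simp [Ins.l, insOf, MCH_n, enc]
  · simp [Ins.l, insOf, MCH_n, sop]
  · simp [Ins.l, insOf, MCH_n, sop]
  · simp [Ins.l, insOf, MCH_n, sop]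
  · simp [Ins.l, insOf, MCH_n, sop]

theorem MCH_pos (ν : Sm → ℕ) (B : ℕ) (hB : 0 < B) (q : Sm) (v o : Option Γ') (j : Fin 5) :
    0 < (insOf ν B q v o).P j ∧ 0 < (insOf ν B q v o).q j := by
  by_cases hj : j = 0
  · subst hj
    constructor
    · simp [insOf, hB]
    · simp [insOf, hB]
  · constructor
    · simp only [insOf, if_neg hj]
      cases q <;> simp only [sop] <;> (try split_ifs) <;> norm_num
    · simp only [insOf, if_neg hj]
      cases q <;> simp only [sop] <;> (try split_ifs) <;> norm_num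

theorem MCH_mic (C : MC) (h : C.1 ≠ TM2.Stmt.halt) : ∃ C', mic C = some C' := by
  obtain ⟨q, v, S⟩ := C
  cases q with
  | push k f q => exact ⟨_, rfl⟩
  | peek k f q => exact ⟨_, rfl⟩
  | pop k f q => exact ⟨_, rfl⟩
  | load a q => exact ⟨_, rfl⟩
  | branch f q₁ q₂ => exact ⟨_, rfl⟩
  | goto l => exact ⟨_, rfl⟩
  | halt => exact absurd rfl h

theorem MCH (hHLT : HLT_stmt) (hMIC : MIC_stmt) (hSUP : SUP_stmt) (hSIM : SIM_stmt)
    (hDTM : DTM_stmt) (hENJ : ENJ_stmt) (hCNM : CNM_stmt) : MCH_stmt := by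
  classical
  intro c
  obtain ⟨c', hc'⟩ := hHLT c
  obtain ⟨Q, hQf, hQ0, hQh, hQc⟩ := hSUP c'
  have hfin : Finite Q := hQf
  let eQ := Finite.equivFin Q
  let B := Nat.card Q
  let ν : Sm → ℕ := fun q => if h : q ∈ Q then (eQ ⟨q, h⟩ : ℕ) else 0
  have hν : ∀ q ∈ Q, ν q < B := by
    intro q hq
    simp only [ν, dif_pos hq]
    exact (eQ ⟨q, hq⟩).2
  have hνi : ∀ q ∈ Q, ∀ q' ∈ Q, ν q = ν q' → q = q' := by
    intro q hq q' hq' h
    simp only [ν, dif_pos hq, dif_pos hq'] at h
    have := eQ.injective (Fin.ext h)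
    exact congrArg Subtype.val this
  have hB : 0 < B := (Nat.zero_le _).trans_lt (hν _ hQh)
  let I : Type := {q : Q // q.1 ≠ (TM2.Stmt.halt : Sm)} × Option Γ' × Option Γ'
  let eI := Finite.equivFin I
  let prog : Fin (Nat.card I) → Ins (Fin 5) := fun i =>
    insOf ν B (eI.symm i).1.1.1 (eI.symm i).2.1 (eI.symm i).2.2
  let Z : MC := (TM2.Stmt.halt, none, K'.elim [] [] [] [])
  let X0 : ℕ → MC := fun e => (tr (trNormal c' Cont'.halt), none, K'.elim (trList [e]) [] [] [])
  -- determinism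
  have hdet : ∀ x y y', Stp prog x y → Stp prog x y' → y = y' := by
    rintro x y y' ⟨i, n, h1, h2⟩ ⟨i', n', h1', h2'⟩
    have h := hDTM ν B (eI.symm i).1.1.1 (eI.symm i').1.1.1 (eI.symm i).2.1 (eI.symm i').2.1
      (eI.symm i).2.2 (eI.symm i').2.2 n n' (hν _ (eI.symm i).1.1.2) (hν _ (eI.symm i').1.1.2)
      (hνi _ (eI.symm i).1.1.2 _ (eI.symm i').1.1.2) (h1.symm.trans h1')
    rw [h2, h2']
    exact h.2.2
  -- final configurations are terminal
  have hter : ∀ v S y, ¬ Stp prog (enc ν (TM2.Stmt.halt, v, S)) y := by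
    rintro v S y ⟨i, n, h1, h2⟩
    rw [MCH_halt ν B v S] at h1
    have h := hDTM ν B TM2.Stmt.halt (eI.symm i).1.1.1 v (eI.symm i).2.1
      none (eI.symm i).2.2 _ n (hν _ hQh) (hν _ (eI.symm i).1.1.2)
      (hνi _ hQh _ (eI.symm i).1.1.2) h1
    exact (eI.symm i).1.2 h.1.symm
  -- simulation
  have hsim : ∀ C C' : MC, C.1 ∈ Q → mic C = some C' → Stp prog (enc ν C) (enc ν C') := by
    rintro ⟨q, v, S⟩ C' hq hm
    have hne : q ≠ TM2.Stmt.halt := by
      rintro rfl
      simp [mic] at hm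
    obtain ⟨o, n, h1, h2⟩ := hSIM ν B q v S C' hm
    let t : I := (⟨⟨q, hq⟩, hne⟩, v, o)
    refine ⟨eI t, n, ?_, ?_⟩
    · simp only [prog, Equiv.symm_apply_apply]
      exact h1
    · simp only [prog, Equiv.symm_apply_apply]
      exact h2
  refine ⟨Nat.card I, prog, MCH_enc ν Z, fun e => MCH_enc ν (X0 e), ?_, hdet, ?_, ?_, ?_⟩
  · intro i j
    exact MCH_pos ν B hB _ _ _ j
  · intro y
    rw [MCH_cz]
    exact hter _ _ y
  · intro j
    fin_cases j
    · exact (Computable.const (MCH_enc ν (X0 0) 0) : Computable fun _ : ℕ => MCH_enc ν (X0 0) 0)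
    · exact hCNM
    · exact (Computable.const 0 : Computable fun _ : ℕ => (0 : ℕ))
    · exact (Computable.const 0 : Computable fun _ : ℕ => (0 : ℕ))
    · exact (Computable.const 0 : Computable fun _ : ℕ => (0 : ℕ))
  · intro e
    rw [MCH_cz, MCH_cz, hc' e]
    have hM := hMIC (trNormal c' Cont'.halt) none (K'.elim (trList [e]) [] [] []) none
      (K'.elim [] [] [] [])
    have hinit : (PartrecToTM2.init c' [e]) =
      ⟨some (trNormal c' Cont'.halt), none, K'.elim (trList [e]) [] [] []⟩ := rfl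
    rw [hinit, hM]
    constructor
    · -- from the machine to the micro steps
      intro h
      have key : ∀ x, ReflTransGen (Stp prog) x (enc ν Z) → ∀ C : MC, C.1 ∈ Q → x = enc ν C →
          StateTransition.Reaches mic C Z := by
        intro x hx
        induction hx using ReflTransGen.head_induction_on with
        | refl =>
          intro C hC he
          have : C = Z := hENJ ν C Z (hνi _ hC _ hQh) he.symm
          rw [this]
          exact ReflTransGen.refl
        | head hxy hyz ih =>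
          intro C hC he
          subst he
          have hne : C.1 ≠ TM2.Stmt.halt := by
            obtain ⟨q, v, S⟩ := C
            rintro rfl
            exact hter v S _ hxy
          obtain ⟨C', hm⟩ := MCH_mic C hne
          have hs := hsim C C' hC hm
          have hy := hdet _ _ _ hxy hs
          have hC' : C'.1 ∈ Q := hQc C.1 hC C.2.1 C.2.2 C' hm
          exact ReflTransGen.head hm (ih C' hC' hy)
      exact key _ h (X0 e) hQ0 rfl
    · intro h
      have key : ∀ D : MC, StateTransition.Reaches mic (X0 e) D →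
          ReflTransGen (Stp prog) (enc ν (X0 e)) (enc ν D) ∧ D.1 ∈ Q := by
        intro D hD
        induction hD with
        | refl => exact ⟨ReflTransGen.refl, hQ0⟩
        | tail _ hbc ih =>
          exact ⟨ih.1.tail (hsim _ _ ih.2 hbc), hQc _ ih.2 _ _ _ hbc⟩
      exact (key Z h).1

end Pool.Agent.TP
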